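import Mathlib
import Pool.Agent.H66.BP.Targets

/-! # MP_d8fe2e_gt, module COV: the natural scale and the covering estimate -/

open MeasureTheory Set Filter Topology Metric
open scoped Real ENNReal NNReal ComplexConjugate ContDiff

namespace Pool.Agent.H97.BP
open Pool.Agent.H66.BP

/-- the energy of a measure at the scale `d` -/
noncomputable def G (m : Measure ℝ) (w d : ℝ) : ℝ := ∫ v, (max (d - |w - v|) 0) ^ 2 ∂m

section basic
variable {m : Measure ℝ} [IsFiniteMeasure m]

theorem G_bd (w d v : ℝ) : (max (d - |w - v|) 0) ^ 2 ≤ (max d 0) ^ 2 := by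
  have h1 : max (d - |w - v|) 0 ≤ max d 0 := by
    apply max_le_max _ le_rfl
    linarith [abs_nonneg (w - v)]
  have h2 : 0 ≤ max (d - |w - v|) 0 := le_max_right _ _
  exact pow_le_pow_left₀ h2 h1 2

theorem G_int (w d : ℝ) : Integrable (fun v => (max (d - |w - v|) 0) ^ 2) m := by
  refine Integrable.of_bound (Measurable.aestronglyMeasurable (by fun_prop)) ((max d 0) ^ 2)
    (ae_of_all _ fun v => ?_)
  rw [Real.norm_eq_abs, abs_of_nonneg (sq_nonneg _)]
  exact G_bd w d v

theorem G_nonneg (w d : ℝ) : 0 ≤ G m w d := integral_nonneg fun _ => sq_nonneg _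

theorem G_le {w d : ℝ} (hd : 0 ≤ d) : G m w d ≤ d ^ 2 * m.real univ := by
  have h1 : G m w d ≤ ∫ _, d ^ 2 ∂m := by
    apply integral_mono (G_int w d) (integrable_const _)
    intro v
    have := G_bd w d v
    rwa [max_eq_left hd] at this
  rw [integral_const, smul_eq_mul] at h1
  linarith

theorem G_cont (w : ℝ) : Continuous (G m w) := by
  rw [continuous_iff_continuousAt]
  intro d0
  unfold G
  refine continuousAt_of_dominated (bound := fun _ => (max (d0 + 1) 0) ^ 2) ?_ ?_ ?_ ?_
  · exact Eventually.of_forall fun d => (G_int w d).aestronglyMeasurable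
  · filter_upwards [Iic_mem_nhds (show d0 < d0 + 1 by linarith)] with d hd
    refine ae_of_all _ fun v => ?_
    rw [Real.norm_eq_abs, abs_of_nonneg (sq_nonneg _)]
    refine (G_bd w d v).trans ?_
    exact pow_le_pow_left₀ (le_max_right _ _) (max_le_max hd le_rfl) 2
  · exact integrable_const _
  · refine ae_of_all _ fun v => ?_
    fun_prop

theorem G_scale {w d d' : ℝ} (hd : 0 < d) (hdd : d ≤ d') :
    (d' / d) ^ 2 * G m w d ≤ G m w d' := by
  unfold G
  rw [← integral_const_mul]
  apply integral_mono ((G_int w d).const_mul _) (G_int w d')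
  intro v
  simp only
  rw [← mul_pow]
  have hq : 1 ≤ d' / d := by rwa [one_le_div hd]
  apply pow_le_pow_left₀
  · exact mul_nonneg (by linarith) (le_max_right _ _)
  · rcases le_total (d - |w - v|) 0 with h | h
    · rw [max_eq_right h, mul_zero]; exact le_max_right _ _
    · rw [max_eq_left h]
      refine le_trans ?_ (le_max_left _ _)
      have : d' / d * (d - |w - v|) = d' - d' / d * |w - v| := by field_simp
      rw [this]
      nlinarith [abs_nonneg (w - v)]

theorem G_shift {w w' d d' : ℝ} (h : d' + |w - w'| ≤ d) : G m w' d' ≤ G m w d := by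
  apply integral_mono (G_int w' d') (G_int w d)
  intro v
  simp only
  apply pow_le_pow_left₀ (le_max_right _ _)
  apply max_le_max _ le_rfl
  have : |w - v| ≤ |w - w'| + |w' - v| := abs_sub_le _ _ _
  linarith

theorem G_four {w v d : ℝ} (h : |v - w| ≤ d) : 4 * G m w d ≤ G m v (4 * d) := by
  unfold G
  rw [← integral_const_mul]
  apply integral_mono ((G_int w d).const_mul _) (G_int v (4 * d))
  intro x
  simp only
  have h4 : (4 : ℝ) = 2 ^ 2 := by norm_num
  have e : 4 * (max (d - |w - x|) 0) ^ 2 = (2 * max (d - |w - x|) 0) ^ 2 := by ring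
  rw [e]
  apply pow_le_pow_left₀ (by positivity)
  rcases le_total (d - |w - x|) 0 with h1 | h1
  · rw [max_eq_right h1, mul_zero]; exact le_max_right _ _
  · rw [max_eq_left h1]
    refine le_trans ?_ (le_max_left _ _)
    have : |v - x| ≤ |v - w| + |w - x| := abs_sub_le _ _ _
    have h2 := abs_nonneg (w - x)
    linarith

theorem G_set {w s d : ℝ} {A : Set ℝ} (hA : MeasurableSet A) (hs : ∀ v ∈ A, |w - v| ≤ s)
    (hsd : s ≤ d) : (d - s) ^ 2 * m.real A ≤ G m w d := by
  have h1 : ∫ v in A, (max (d - |w - v|) 0) ^ 2 ∂m ≤ G m w d :=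
    setIntegral_le_integral (G_int w d) (ae_of_all _ fun _ => sq_nonneg _)
  have h2 : ∫ v in A, (d - s) ^ 2 ∂m ≤ ∫ v in A, (max (d - |w - v|) 0) ^ 2 ∂m := by
    apply setIntegral_mono_on (integrable_const _) (G_int w d).integrableOn hA
    intro v hv
    apply pow_le_pow_left₀ (by linarith)
    refine le_trans ?_ (le_max_left _ _)
    linarith [hs v hv]
  rw [setIntegral_const, smul_eq_mul] at h2
  linarith

/-- the set of admissible scales -/
def SS (m : Measure ℝ) (τ Λ w : ℝ) : Set ℝ := {d | 0 < d ∧ Λ * d ≤ τ * G m w d}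

/-- the natural scale -/
noncomputable def del (m : Measure ℝ) (τ Λ w : ℝ) : ℝ := sInf (SS m τ Λ w)

theorem SS_up {τ Λ w d d' : ℝ} (hτ : 0 < τ) (hΛ : 0 < Λ) (hd : d ∈ SS m τ Λ w) (hdd : d ≤ d') :
    d' ∈ SS m τ Λ w := by
  obtain ⟨h0, h1⟩ := hd
  have h0' : 0 < d' := lt_of_lt_of_le h0 hdd
  refine ⟨h0', ?_⟩
  have h2 := G_scale (m := m) (w := w) h0 hdd
  have h3 : (d' / d) ^ 2 * (Λ * d) ≤ τ * G m w d' := by
    calc (d' / d) ^ 2 * (Λ * d) ≤ (d' / d) ^ 2 * (τ * G m w d) := by gcongr
      _ = τ * ((d' / d) ^ 2 * G m w d) := by ring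
      _ ≤ τ * G m w d' := by gcongr
  refine le_trans ?_ h3
  have h4 : (d' / d) ^ 2 * (Λ * d) = (d' / d) * (Λ * d') := by field_simp
  rw [h4]
  have h5 : 1 ≤ d' / d := by rwa [one_le_div h0]
  nlinarith [mul_pos hΛ h0']

theorem del_spec {τ Λ w₀ r : ℝ} (hτ : 0 < τ) (hΛ : 0 < Λ) (hr : 0 < r)
    (hm : 0 < m (closedBall w₀ r)) (w : ℝ) :
    0 < del m τ Λ w ∧ τ * G m w (del m τ Λ w) = Λ * del m τ Λ w ∧
      ∀ d > 0, (del m τ Λ w ≤ d ↔ Λ * d ≤ τ * G m w d) := by
  have hmK : 0 < m.real (closedBall w₀ r) :=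
    ENNReal.toReal_pos hm.ne' (measure_ne_top _ _)
  have hMle : m.real (closedBall w₀ r) ≤ m.real univ := measureReal_mono (subset_univ _)
  have hM : 0 < m.real univ := lt_of_lt_of_le hmK hMle
  -- nonempty
  have hne : (SS m τ Λ w).Nonempty := by
    set R := |w - w₀| + r with hR
    have hR0 : 0 < R := by positivity
    set d := max (2 * R) (4 * Λ / (τ * m.real (closedBall w₀ r))) with hd
    have hd1 : 2 * R ≤ d := le_max_left _ _
    have hd2 : 4 * Λ / (τ * m.real (closedBall w₀ r)) ≤ d := le_max_right _ _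
    have hd0 : 0 < d := by linarith
    refine ⟨d, hd0, ?_⟩
    have h1 := G_set (m := m) (w := w) (s := R) (d := d) measurableSet_closedBall
      (A := closedBall w₀ r) (fun v hv => by
        rw [mem_closedBall, Real.dist_eq] at hv
        have : |w - v| ≤ |w - w₀| + |w₀ - v| := abs_sub_le _ _ _
        rw [abs_sub_comm w₀ v] at this
        linarith) (by linarith)
    have h2 : (d / 2) ^ 2 ≤ (d - R) ^ 2 := pow_le_pow_left₀ (by positivity) (by linarith) 2
    rw [div_le_iff₀ (by positivity)] at hd2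
    calc Λ * d ≤ (d * (τ * m.real (closedBall w₀ r))) / 4 * d := by
          gcongr; linarith
      _ = τ * ((d / 2) ^ 2 * m.real (closedBall w₀ r)) := by ring
      _ ≤ τ * ((d - R) ^ 2 * m.real (closedBall w₀ r)) := by gcongr
      _ ≤ τ * G m w d := by gcongr
  -- bounded below
  set c := Λ / (τ * m.real univ) with hc
  have hc0 : 0 < c := by positivity
  have hlow : ∀ d ∈ SS m τ Λ w, c ≤ d := by
    rintro d ⟨h0, h1⟩
    have h2 := G_le (m := m) (w := w) h0.le
    have h3 : Λ * d ≤ τ * (d ^ 2 * m.real univ) := h1.trans (by gcongr)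
    rw [hc, div_le_iff₀ (by positivity)]
    have h4 : d * Λ ≤ d * (d * (τ * m.real univ)) := by linarith
    exact le_of_mul_le_mul_left h4 h0
  have hbdd : BddBelow (SS m τ Λ w) := ⟨c, hlow⟩
  have hcl : IsClosed (SS m τ Λ w) := by
    have heq : SS m τ Λ w = Ici c ∩ {d | Λ * d ≤ τ * G m w d} := by
      ext d
      constructor
      · intro hd
        exact ⟨hlow d hd, hd.2⟩
      · rintro ⟨h1, h2⟩
        exact ⟨lt_of_lt_of_le hc0 h1, h2⟩
    rw [heq]
    exact isClosed_Ici.inter (isClosed_le (by fun_prop) ((G_cont w).const_mul τ |>.congr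
      (fun _ => rfl)))
  have hmem : del m τ Λ w ∈ SS m τ Λ w := hcl.csInf_mem hne hbdd
  have hiff : ∀ d > 0, (del m τ Λ w ≤ d ↔ Λ * d ≤ τ * G m w d) := by
    intro d hd
    constructor
    · intro h
      exact (SS_up hτ hΛ hmem h).2
    · intro h
      exact csInf_le hbdd ⟨hd, h⟩
  refine ⟨hmem.1, le_antisymm ?_ hmem.2, hiff⟩
  have hlim1 : Tendsto (fun d => τ * G m w d) (𝓝[<] (del m τ Λ w))
      (𝓝 (τ * G m w (del m τ Λ w))) :=
    (((G_cont w).tendsto _).const_mul τ).mono_left nhdsWithin_le_nhds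
  have hlim2 : Tendsto (fun d => Λ * d) (𝓝[<] (del m τ Λ w)) (𝓝 (Λ * del m τ Λ w)) :=
    ((continuous_id.tendsto _).const_mul Λ).mono_left nhdsWithin_le_nhds
  refine le_of_tendsto_of_tendsto hlim1 hlim2 ?_
  have h1 : Ioo 0 (del m τ Λ w) ∈ 𝓝[<] (del m τ Λ w) := Ioo_mem_nhdsLT hmem.1
  filter_upwards [h1] with d hd
  by_contra hcon
  push Not at hcon
  exact absurd ((hiff d hd.1).2 hcon.le) (not_le.2 hd.2)

theorem G_meas (d : ℝ) : Measurable (fun w => G m w d) := by
  have h1 : StronglyMeasurable (fun q : ℝ × ℝ => (max (d - |q.1 - q.2|) 0) ^ 2) :=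
    Continuous.stronglyMeasurable (by fun_prop)
  exact h1.integral_prod_right.measurable

theorem del_meas {τ Λ w₀ r : ℝ} (hτ : 0 < τ) (hΛ : 0 < Λ) (hr : 0 < r)
    (hm : 0 < m (closedBall w₀ r)) : Measurable (del m τ Λ) := by
  apply measurable_of_Iic
  intro d
  rcases le_or_gt d 0 with hd | hd
  · have : del m τ Λ ⁻¹' Iic d = ∅ := by
      ext w
      simp only [mem_preimage, mem_Iic, mem_empty_iff_false, iff_false, not_le]
      exact lt_of_le_of_lt hd (del_spec hτ hΛ hr hm w).1
    rw [this]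
    exact MeasurableSet.empty
  · have : del m τ Λ ⁻¹' Iic d = {w | Λ * d ≤ τ * G m w d} := by
      ext w
      exact (del_spec hτ hΛ hr hm w).2.2 d hd
    rw [this]
    exact measurableSet_le measurable_const ((G_meas d).const_mul τ)

end basic

/-- the majorant of the inner integrand -/
noncomputable def BB (a x : ℝ) : ℝ≥0∞ :=
  if |x| < a then ENNReal.ofReal (4 / a) else ENNReal.ofReal (a / x ^ 2)

theorem tail_le {a : ℝ} (ha : 0 < a) : ∫⁻ x in Ici a, ENNReal.ofReal (a / x ^ 2) ≤ 1 := by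
  have h1 : IntegrableOn (fun x : ℝ => a * x ^ (-2 : ℝ)) (Ioi a) :=
    (integrableOn_Ioi_rpow_of_lt (by norm_num) ha).const_mul a
  have h2 : ∫ x in Ioi a, a * x ^ (-2 : ℝ) = 1 := by
    rw [integral_const_mul, integral_Ioi_rpow_of_lt (by norm_num) ha]
    norm_num
    rw [Real.rpow_neg_one]
    field_simp
  have h3 : ∫⁻ x in Ici a, ENNReal.ofReal (a / x ^ 2) =
      ∫⁻ x in Ioi a, ENNReal.ofReal (a / x ^ 2) :=
    setLIntegral_congr Ioi_ae_eq_Ici.symm
  rw [h3]
  have h4 : ∫⁻ x in Ioi a, ENNReal.ofReal (a / x ^ 2) =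
      ∫⁻ x in Ioi a, ENNReal.ofReal (a * x ^ (-2 : ℝ)) := by
    apply setLIntegral_congr_fun measurableSet_Ioi
    intro x hx
    have hx0 : 0 < x := ha.trans hx
    show ENNReal.ofReal (a / x ^ 2) = ENNReal.ofReal (a * x ^ (-2 : ℝ))
    rw [Real.rpow_neg hx0.le]
    norm_num [div_eq_mul_inv]
  rw [h4, ← ofReal_integral_eq_lintegral_ofReal h1, h2]
  · simp
  · rw [EventuallyLE, ae_restrict_iff' measurableSet_Ioi]
    refine ae_of_all _ fun x hx => ?_
    have hx0 : 0 < x := ha.trans hx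
    show 0 ≤ a * x ^ (-2 : ℝ)
    positivity

theorem BB_le {a : ℝ} (ha : 0 < a) : ∫⁻ x, BB a x ≤ 10 := by
  have hcov : (univ : Set ℝ) ⊆ (ball 0 a ∪ Ici a) ∪ Iic (-a) := by
    intro x _
    rcases lt_or_ge |x| a with h | h
    · left; left
      rw [mem_ball, Real.dist_eq, sub_zero]; exact h
    · rcases le_abs.1 h with h | h
      · left; right; exact h
      · right
        show x ≤ -a
        linarith
  have h1 : ∫⁻ x in ball 0 a, BB a x ≤ 8 := by
    calc ∫⁻ x in ball 0 a, BB a x ≤ ∫⁻ x in ball (0 : ℝ) a, ENNReal.ofReal (4 / a) := by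
          apply setLIntegral_mono' measurableSet_ball
          intro x hx
          rw [mem_ball, Real.dist_eq, sub_zero] at hx
          unfold BB
          rw [if_pos hx]
      _ = ENNReal.ofReal (4 / a) * ENNReal.ofReal (2 * a) := by
          rw [setLIntegral_const, Real.volume_ball]
      _ = ENNReal.ofReal 8 := by
          rw [← ENNReal.ofReal_mul (by positivity)]
          congr 1
          field_simp
          norm_num
      _ = 8 := by norm_num
      _ ≤ 8 := le_rfl
  have h2 : ∫⁻ x in Ici a, BB a x ≤ 1 := by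
    refine le_trans ?_ (tail_le ha)
    apply setLIntegral_mono' measurableSet_Ici
    intro x hx
    have hx' : a ≤ x := hx
    unfold BB
    rw [if_neg]
    rw [abs_of_pos (by linarith)]
    exact not_lt.2 hx'
  have h3 : ∫⁻ x in Iic (-a), BB a x ≤ 1 := by
    have hmp := (Measure.measurePreserving_neg (volume : Measure ℝ))
    have := hmp.setLIntegral_comp_preimage_emb (MeasurableEquiv.neg ℝ).measurableEmbedding
      (BB a) (Iic (-a))
    rw [← this]
    have hpre : (Neg.neg : ℝ → ℝ) ⁻¹' Iic (-a) = Ici a := by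
      ext x; simp
    rw [hpre]
    refine le_trans (le_of_eq ?_) h2
    congr 1
    ext x
    unfold BB
    simp
  calc ∫⁻ x, BB a x = ∫⁻ x in univ, BB a x := by rw [setLIntegral_univ]
    _ ≤ ∫⁻ x in (ball 0 a ∪ Ici a) ∪ Iic (-a), BB a x := lintegral_mono_set hcov
    _ ≤ (∫⁻ x in (ball 0 a ∪ Ici a), BB a x) + ∫⁻ x in Iic (-a), BB a x :=
        lintegral_union_le _ _ _
    _ ≤ ((∫⁻ x in ball 0 a, BB a x) + ∫⁻ x in Ici a, BB a x) + ∫⁻ x in Iic (-a), BB a x := by
        gcongr
        exact lintegral_union_le _ _ _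
    _ ≤ (8 + 1) + 1 := by gcongr
    _ = 10 := by norm_num

section cover
variable {m : Measure ℝ} [IsFiniteMeasure m]

theorem pointwise {τ Λ w₀ r : ℝ} (hτ : 0 < τ) (hΛ : 0 < Λ) (hr : 0 < r)
    (hm : 0 < m (closedBall w₀ r)) (w v : ℝ) :
    ENNReal.ofReal ((max (del m τ Λ w - |w - v|) 0) ^ 2 / (del m τ Λ w) ^ 3) ≤
      BB (del m τ Λ v) (w - v) := by
  obtain ⟨hw0, hw1, hw2⟩ := del_spec (m := m) hτ hΛ hr hm w
  obtain ⟨hv0, hv1, hv2⟩ := del_spec (m := m) hτ hΛ hr hm v
  set δ := del m τ Λ w with hδ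
  set δ' := del m τ Λ v with hδ'
  rcases le_or_gt δ |w - v| with hD | hD
  · rw [max_eq_right (by linarith)]
    simp
  have hD' : 0 < δ - |w - v| := by linarith
  rw [max_eq_left hD'.le]
  -- (i)
  have hi : δ' ≤ 4 * δ := by
    rw [hv2 (4 * δ) (by positivity)]
    have h1 := G_four (m := m) (w := w) (v := v) (d := δ) (by rw [abs_sub_comm]; exact hD.le)
    calc Λ * (4 * δ) = 4 * (Λ * δ) := by ring
      _ = τ * (4 * G m w δ) := by rw [← hw1]; ring
      _ ≤ τ * G m v (4 * δ) := by gcongr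
  -- (ii)
  have hii : (δ - |w - v|) ^ 2 ≤ δ' * δ := by
    rcases le_or_gt δ' (δ - |w - v|) with h | h
    · have h1 := G_shift (m := m) (w := w) (w' := v) (d := δ) (d' := δ - |w - v|)
        (by linarith)
      have h2 := G_scale (m := m) (w := v) hv0 h
      have h3 : ((δ - |w - v|) / δ') ^ 2 * (Λ * δ') ≤ Λ * δ := by
        calc ((δ - |w - v|) / δ') ^ 2 * (Λ * δ') = τ * (((δ - |w - v|) / δ') ^ 2 * G m v δ') := by
              rw [← hv1]; ring
          _ ≤ τ * G m v (δ - |w - v|) := by gcongr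
          _ ≤ τ * G m w δ := by gcongr
          _ = Λ * δ := hw1
      have h4 : ((δ - |w - v|) / δ') ^ 2 * (Λ * δ') = Λ * ((δ - |w - v|) ^ 2 / δ') := by
        field_simp
      rw [h4] at h3
      have h5 := le_of_mul_le_mul_left h3 hΛ
      rw [div_le_iff₀ hv0] at h5
      linarith
    · have h1 : δ - |w - v| ≤ δ := by linarith [abs_nonneg (w - v)]
      calc (δ - |w - v|) ^ 2 = (δ - |w - v|) * (δ - |w - v|) := by ring
        _ ≤ δ' * δ := by
          apply mul_le_mul h.le h1 hD'.le hv0.le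
  unfold BB
  split_ifs with hlt
  · apply ENNReal.ofReal_le_ofReal
    rw [div_le_div_iff₀ (by positivity) hv0]
    have h1 : (δ - |w - v|) ^ 2 ≤ δ ^ 2 :=
      pow_le_pow_left₀ hD'.le (by linarith [abs_nonneg (w - v)]) 2
    calc (δ - |w - v|) ^ 2 * δ' ≤ δ ^ 2 * (4 * δ) := by gcongr
      _ = 4 * δ ^ 3 := by ring
  · push Not at hlt
    apply ENNReal.ofReal_le_ofReal
    have hpos : 0 < |w - v| := lt_of_lt_of_le hv0 hlt
    have hsq : (w - v) ^ 2 = |w - v| ^ 2 := (sq_abs _).symm
    rw [hsq, div_le_div_iff₀ (by positivity) (by positivity)]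
    have h1 : |w - v| ^ 2 ≤ δ ^ 2 := pow_le_pow_left₀ hpos.le hD.le 2
    calc (δ - |w - v|) ^ 2 * |w - v| ^ 2 ≤ (δ' * δ) * δ ^ 2 := by gcongr
      _ = δ' * δ ^ 3 := by ring

end cover

/-- module COV -/
theorem COV_proof : T_COV := by
  intro m _ w₀ r Λ hr hΛ hm
  have hmK : 0 < m.real (closedBall w₀ r) :=
    ENNReal.toReal_pos hm.ne' (measure_ne_top _ _)
  filter_upwards [eventually_ge_atTop (max 1 (3 * Λ / (r * m.real (closedBall w₀ r))))] with τ hτ'
  have hτ : 0 < τ := lt_of_lt_of_le one_pos ((le_max_left _ _).trans hτ')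
  have hτ2 : 3 * Λ / (r * m.real (closedBall w₀ r)) ≤ τ := (le_max_right _ _).trans hτ'
  have hmeas := del_meas (m := m) hτ hΛ hr hm
  have hle3 : ∀ w ∈ closedBall w₀ r, del m τ Λ w ≤ 3 * r := by
    intro w hw
    rw [(del_spec (m := m) hτ hΛ hr hm w).2.2 (3 * r) (by positivity)]
    have h1 := G_set (m := m) (w := w) (s := 2 * r) (d := 3 * r) measurableSet_closedBall
      (A := closedBall w₀ r) (fun v hv => by
        rw [mem_closedBall, Real.dist_eq] at hv hw
        have : |w - v| ≤ |w - w₀| + |w₀ - v| := abs_sub_le _ _ _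
        rw [abs_sub_comm w₀ v] at this
        linarith) (by linarith)
    rw [div_le_iff₀ (by positivity)] at hτ2
    calc Λ * (3 * r) = (3 * Λ) * r := by ring
      _ ≤ (τ * (r * m.real (closedBall w₀ r))) * r := by gcongr
      _ = τ * ((3 * r - 2 * r) ^ 2 * m.real (closedBall w₀ r)) := by ring
      _ ≤ τ * G m w (3 * r) := by gcongr
  refine ⟨del m τ Λ, hmeas, ?_, ?_⟩
  · intro w hw
    obtain ⟨h0, h1, h2⟩ := del_spec (m := m) hτ hΛ hr hm w
    refine ⟨h0, hle3 w hw, ?_⟩
    have h3 := G_set (m := m) (w := w) (s := del m τ Λ w / 2) (d := del m τ Λ w)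
      (A := ball w (del m τ Λ w / 2)) measurableSet_ball (fun v hv => by
        rw [mem_ball, Real.dist_eq, abs_sub_comm] at hv
        exact hv.le) (by linarith)
    rw [le_div_iff₀ (by positivity)]
    have h4 : τ * ((del m τ Λ w / 2) ^ 2 * m.real (ball w (del m τ Λ w / 2))) ≤
        Λ * del m τ Λ w := by
      rw [← h1]
      have e : del m τ Λ w - del m τ Λ w / 2 = del m τ Λ w / 2 := by ring
      rw [e] at h3
      gcongr
    have h5 : del m τ Λ w * (m.real (ball w (del m τ Λ w / 2)) * (τ * del m τ Λ w)) ≤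
        del m τ Λ w * (4 * Λ) := by linarith
    exact le_of_mul_le_mul_left h5 h0
  · set K := closedBall w₀ r with hK
    have hpos : ∀ w, 0 < del m τ Λ w := fun w => (del_spec (m := m) hτ hΛ hr hm w).1
    set f : ℝ → ℝ → ℝ≥0∞ := fun w v =>
      ENNReal.ofReal ((max (del m τ Λ w - |w - v|) 0) ^ 2 / (del m τ Λ w) ^ 3) with hf
    have hfm : Measurable (Function.uncurry f) := by
      have h1 : Measurable fun q : ℝ × ℝ => del m τ Λ q.1 := hmeas.comp measurable_fst
      have h2 : Measurable fun q : ℝ × ℝ => |q.1 - q.2| := by fun_prop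
      exact ((((h1.sub h2).max measurable_const).pow_const 2).div (h1.pow_const 3)).ennreal_ofReal
    have step1 : ∀ w, ENNReal.ofReal (1 / (del m τ Λ w) ^ 2) =
        ENNReal.ofReal (τ / Λ) * ∫⁻ v, f w v ∂m := by
      intro w
      obtain ⟨h0, h1, h2⟩ := del_spec (m := m) hτ hΛ hr hm w
      have h3 : ∫⁻ v, f w v ∂m = ENNReal.ofReal (G m w (del m τ Λ w) / (del m τ Λ w) ^ 3) := by
        unfold G
        rw [← integral_div, ofReal_integral_eq_lintegral_ofReal ((G_int w _).div_const _)]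
        exact ae_of_all _ fun v => by positivity
      rw [h3, ← ENNReal.ofReal_mul (by positivity)]
      congr 1
      have h4 : G m w (del m τ Λ w) = Λ * del m τ Λ w / τ := by
        rw [eq_div_iff hτ.ne']; linarith
      rw [h4]
      field_simp
    have step2 : ∫⁻ w in K, ENNReal.ofReal (1 / (del m τ Λ w) ^ 2) =
        ENNReal.ofReal (τ / Λ) * ∫⁻ v, (∫⁻ w in K, f w v) ∂m := by
      have hm2 : Measurable fun w => ∫⁻ v, f w v ∂m := hfm.lintegral_prod_right'
      rw [lintegral_congr step1, lintegral_const_mul _ hm2,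
        lintegral_lintegral_swap hfm.aemeasurable]
    have step3 : ∀ v, ∫⁻ w in K, f w v ≤ (closedBall w₀ (4 * r)).indicator (fun _ => 10) v := by
      intro v
      by_cases hv : v ∈ closedBall w₀ (4 * r)
      · rw [indicator_of_mem hv]
        calc ∫⁻ w in K, f w v ≤ ∫⁻ w in K, BB (del m τ Λ v) (w - v) :=
              lintegral_mono fun w => pointwise hτ hΛ hr hm w v
          _ ≤ ∫⁻ w, BB (del m τ Λ v) (w - v) := setLIntegral_le_lintegral _ _
          _ = ∫⁻ w, BB (del m τ Λ v) w := lintegral_sub_right_eq_self _ v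
          _ ≤ 10 := BB_le (hpos v)
      · rw [indicator_of_notMem hv]
        refine le_of_eq ?_
        rw [setLIntegral_congr_fun (g := fun _ => 0) measurableSet_closedBall]
        · simp
        · intro w hw
          have h1 := hle3 w hw
          rw [mem_closedBall, Real.dist_eq] at hv hw
          push Not at hv
          have h2 : |v - w₀| ≤ |v - w| + |w - w₀| := abs_sub_le _ _ _
          rw [abs_sub_comm v w] at h2
          show ENNReal.ofReal ((max (del m τ Λ w - |w - v|) 0) ^ 2 / (del m τ Λ w) ^ 3) = 0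
          rw [max_eq_right (by linarith)]
          simp
    rw [step2]
    calc ENNReal.ofReal (τ / Λ) * ∫⁻ v, (∫⁻ w in K, f w v) ∂m
        ≤ ENNReal.ofReal (τ / Λ) *
          ∫⁻ v, (closedBall w₀ (4 * r)).indicator (fun _ => (10 : ℝ≥0∞)) v ∂m := by
          exact mul_le_mul_right (lintegral_mono step3) _
      _ = ENNReal.ofReal (τ / Λ) * (10 * m (closedBall w₀ (4 * r))) := by
          rw [lintegral_indicator measurableSet_closedBall, setLIntegral_const]
      _ = ENNReal.ofReal (10 * τ / Λ) * m (closedBall w₀ (4 * r)) := by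
          rw [← mul_assoc]
          congr 1
          have : (10 : ℝ≥0∞) = ENNReal.ofReal 10 := by norm_num
          rw [this, ← ENNReal.ofReal_mul (by positivity)]
          congr 1
          ring

end Pool.Agent.H97.BP
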