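import Mathlib
import Pool.Agent.H66.BP.Targets

/-! # MP_d8fe2e_gt, module FRN: the boundary of a strip -/

open MeasureTheory Set Filter Topology Metric
open scoped Real ENNReal NNReal ComplexConjugate ContDiff

namespace Pool.Agent.H97.BP
open Pool.Agent.H66.BP

theorem cont_coord (i : Fin 2) : Continuous (fun y : E => y i) := by fun_prop

theorem strip_closed (S : Strip) : IsClosed S.set := by
  have hs : IsClosed {y : E | y 1 ∈ Icc S.a S.b} := isClosed_Icc.preimage (cont_coord 1)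
  have hT : ContinuousOn (fun y : E => S.T (y 1)) {y : E | y 1 ∈ Icc S.a S.b} :=
    S.contT.comp (cont_coord 1).continuousOn (fun y hy => hy)
  have hB : ContinuousOn (fun y : E => S.B (y 1)) {y : E | y 1 ∈ Icc S.a S.b} :=
    S.contB.comp (cont_coord 1).continuousOn (fun y hy => hy)
  have h0 : ContinuousOn (fun y : E => y 0) {y : E | y 1 ∈ Icc S.a S.b} :=
    (cont_coord 0).continuousOn
  have h1 := hs.isClosed_le hB h0
  have h2 := hs.isClosed_le h0 hT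
  have : S.set = {y : E | y ∈ {y : E | y 1 ∈ Icc S.a S.b} ∧ S.B (y 1) ≤ y 0} ∩
      {y : E | y ∈ {y : E | y 1 ∈ Icc S.a S.b} ∧ y 0 ≤ S.T (y 1)} := by
    ext y
    constructor
    · rintro ⟨k1, k2, k3⟩
      exact ⟨⟨k1, k2⟩, ⟨k1, k3⟩⟩
    · rintro ⟨⟨k1, k2⟩, ⟨-, k3⟩⟩
      exact ⟨k1, k2, k3⟩
  rw [this]
  exact h1.inter h2

theorem strip_interior (S : Strip) :
    interior S.set = {y | y 1 ∈ Ioo S.a S.b ∧ S.B (y 1) < y 0 ∧ y 0 < S.T (y 1)} := by
  apply Subset.antisymm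
  · intro y hy
    rw [mem_interior_iff_mem_nhds, Metric.mem_nhds_iff] at hy
    obtain ⟨ε, hε, hsub⟩ := hy
    have key : ∀ (i : Fin 2) (s : ℝ), |s| = ε / 2 → y + EuclideanSpace.single i s ∈ S.set := by
      intro i s hs
      apply hsub
      rw [mem_ball, dist_self_add_left, EuclideanSpace.norm_single, Real.norm_eq_abs, hs]
      linarith
    have e1 : |ε / 2| = ε / 2 := abs_of_pos (by positivity)
    have e2 : |(-(ε / 2))| = ε / 2 := by rw [abs_neg]; exact e1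
    have k1 := key 1 (ε / 2) e1
    have k2 := key 1 (-(ε / 2)) e2
    have k3 := key 0 (ε / 2) e1
    have k4 := key 0 (-(ε / 2)) e2
    simp only [Strip.set, mem_setOf_eq, PiLp.add_apply, mem_Icc] at k1 k2 k3 k4
    simp at k1 k2 k3 k4
    refine ⟨⟨?_, ?_⟩, ?_, ?_⟩
    · linarith [k2.1.1]
    · linarith [k1.1.2]
    · linarith [k4.2.1]
    · linarith [k3.2.2]
  · apply interior_maximal
    · rintro y ⟨h1, h2, h3⟩
      exact ⟨⟨h1.1.le, h1.2.le⟩, h2.le, h3.le⟩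
    · have hs : IsOpen {y : E | y 1 ∈ Ioo S.a S.b} := isOpen_Ioo.preimage (cont_coord 1)
      have hT : ContinuousOn (fun y : E => S.T (y 1) - y 0) {y : E | y 1 ∈ Ioo S.a S.b} :=
        (S.contT.comp (cont_coord 1).continuousOn
          (fun y hy => ⟨hy.1.le, hy.2.le⟩)).sub (cont_coord 0).continuousOn
      have hB : ContinuousOn (fun y : E => y 0 - S.B (y 1)) {y : E | y 1 ∈ Ioo S.a S.b} :=
        (cont_coord 0).continuousOn.sub (S.contB.comp (cont_coord 1).continuousOn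
          (fun y hy => ⟨hy.1.le, hy.2.le⟩))
      have h1 := hT.isOpen_inter_preimage hs (isOpen_Ioi (a := 0))
      have h2 := hB.isOpen_inter_preimage hs (isOpen_Ioi (a := 0))
      have : {y : E | y 1 ∈ Ioo S.a S.b ∧ S.B (y 1) < y 0 ∧ y 0 < S.T (y 1)} =
          ({y : E | y 1 ∈ Ioo S.a S.b} ∩ (fun y : E => S.T (y 1) - y 0) ⁻¹' Ioi 0) ∩
          ({y : E | y 1 ∈ Ioo S.a S.b} ∩ (fun y : E => y 0 - S.B (y 1)) ⁻¹' Ioi 0) := by
        ext y
        constructor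
        · rintro ⟨k1, k2, k3⟩
          exact ⟨⟨k1, sub_pos.2 k3⟩, ⟨k1, sub_pos.2 k2⟩⟩
        · rintro ⟨⟨k1, k3⟩, ⟨-, k2⟩⟩
          exact ⟨k1, sub_pos.1 k2, sub_pos.1 k3⟩
      rw [this]
      exact h1.inter h2

/-- module FRN -/
theorem FRN_proof : T_FRN := by
  intro S
  rw [(strip_closed S).frontier_eq, strip_interior]
  ext y
  simp only [Strip.set, mem_diff, mem_setOf_eq, mem_union, not_and, not_lt, mem_Icc, mem_Ioo]
  constructor
  · rintro ⟨⟨⟨h1, h2⟩, h3, h4⟩, h5⟩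
    by_cases ha : y 1 = S.a
    · left; right
      rw [ha] at h3 h4
      exact ⟨ha, h3, h4⟩
    by_cases hb : y 1 = S.b
    · right
      rw [hb] at h3 h4
      exact ⟨hb, h3, h4⟩
    left; left
    have h6 := h5 ⟨lt_of_le_of_ne h1 (Ne.symm ha), lt_of_le_of_ne h2 hb⟩
    rcases lt_or_eq_of_le h3 with h7 | h7
    · left
      exact ⟨⟨h1, h2⟩, le_antisymm h4 (h6 h7)⟩
    · right
      exact ⟨⟨h1, h2⟩, h7.symm⟩
  · rintro (((⟨⟨h1, h2⟩, h3⟩ | ⟨⟨h1, h2⟩, h3⟩) | ⟨h1, h2, h3⟩) | ⟨h1, h2, h3⟩)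
    · exact ⟨⟨⟨h1, h2⟩, by rw [h3]; exact S.le _ ⟨h1, h2⟩, h3.le⟩, fun _ _ => h3.ge⟩
    · exact ⟨⟨⟨h1, h2⟩, h3.ge, by rw [h3]; exact S.le _ ⟨h1, h2⟩⟩,
        fun _ h => absurd h (by rw [h3]; exact lt_irrefl _)⟩
    · refine ⟨⟨⟨h1.ge, by rw [h1]; exact S.hab.le⟩, by rw [h1]; exact h2, by rw [h1]; exact h3⟩,
        fun h => absurd h.1 (by rw [h1]; exact lt_irrefl _)⟩
    · refine ⟨⟨⟨by rw [h1]; exact S.hab.le, h1.le⟩, by rw [h1]; exact h2, by rw [h1]; exact h3⟩,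
        fun h => absurd h.2 (by rw [h1]; exact lt_irrefl _)⟩

end Pool.Agent.H97.BP
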