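import Mathlib
import Pool.Agent.H66.BP.Targets

/-! # MP_d8fe2e_gt, module LW: robustly different amplitudes -/

open MeasureTheory Set Filter Topology Metric
open scoped Real ENNReal NNReal ComplexConjugate ContDiff

namespace Pool.Agent.H97.BP.LWM
open Pool.Agent.H66.BP

theorem cov_int {δ φ : ℝ → ℝ} {K : Set ℝ} {C : ℝ} {M : ℝ≥0∞} (hK : MeasurableSet K)
    (hδ : Measurable δ) (hφ : Measurable φ) (h0 : ∀ w, 0 ≤ φ w) (h1 : ∀ w, φ w ≤ 1)
    (hout : ∀ w, w ∉ K → φ w = 0) (hC : 0 ≤ C) (hM : M ≠ ⊤)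
    (hint : ∫⁻ w in K, ENNReal.ofReal (1 / (δ w) ^ 2) ≤ ENNReal.ofReal C * M) :
    Integrable (fun w => φ w * (1 / (δ w) ^ 2)) ∧
      ∫ w, φ w * (1 / (δ w) ^ 2) ≤ C * M.toReal := by
  have hnn : ∀ w, 0 ≤ φ w * (1 / (δ w) ^ 2) := fun w =>
    mul_nonneg (h0 w) (by positivity)
  have hmeas : Measurable fun w => φ w * (1 / (δ w) ^ 2) :=
    hφ.mul (measurable_const.div (hδ.pow_const 2))
  have hle : ∫⁻ w, ENNReal.ofReal (φ w * (1 / (δ w) ^ 2)) ≤ ENNReal.ofReal C * M := by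
    refine le_trans ?_ hint
    rw [← lintegral_indicator hK]
    apply lintegral_mono
    intro w
    by_cases hw : w ∈ K
    · simp only [indicator_of_mem hw]
      apply ENNReal.ofReal_le_ofReal
      calc φ w * (1 / (δ w) ^ 2) ≤ 1 * (1 / (δ w) ^ 2) := by
            apply mul_le_mul_of_nonneg_right (h1 w) (by positivity)
        _ = 1 / (δ w) ^ 2 := one_mul _
    · simp only [indicator_of_notMem hw]
      rw [hout w hw]
      simp
  have hfin : ENNReal.ofReal C * M < ⊤ := ENNReal.mul_lt_top ENNReal.ofReal_lt_top hM.lt_top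
  have hI : Integrable (fun w => φ w * (1 / (δ w) ^ 2)) := by
    refine ⟨hmeas.aestronglyMeasurable, ?_⟩
    rw [hasFiniteIntegral_iff_ofReal (ae_of_all _ hnn)]
    exact lt_of_le_of_lt hle hfin
  refine ⟨hI, ?_⟩
  rw [integral_eq_lintegral_of_nonneg_ae (ae_of_all _ hnn) hmeas.aestronglyMeasurable]
  calc (∫⁻ w, ENNReal.ofReal (φ w * (1 / (δ w) ^ 2))).toReal
      ≤ (ENNReal.ofReal C * M).toReal := ENNReal.toReal_mono hfin.ne hle
    _ = C * M.toReal := by rw [ENNReal.toReal_mul, ENNReal.toReal_ofReal hC]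

theorem exists_eps {x y : ℝ} {c₁ c₂ : ℝ} (h : c₂ ^ 2 * y < c₁ ^ 2 * x) :
    ∃ ε : ℝ, 0 < ε ∧ (1 + ε) * (c₂ ^ 2 * (y + ε)) + ε < c₁ ^ 2 * (x - ε) := by
  have h1 : Continuous fun ε : ℝ => (1 + ε) * (c₂ ^ 2 * (y + ε)) + ε := by fun_prop
  have h2 : Continuous fun ε : ℝ => c₁ ^ 2 * (x - ε) := by fun_prop
  have h3 : ∀ᶠ ε in 𝓝 (0 : ℝ), (1 + ε) * (c₂ ^ 2 * (y + ε)) + ε < c₁ ^ 2 * (x - ε) :=
    h1.continuousAt.eventually_lt h2.continuousAt (by simpa using h)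
  have h4 : ∀ᶠ ε in 𝓝[>] (0 : ℝ), (1 + ε) * (c₂ ^ 2 * (y + ε)) + ε < c₁ ^ 2 * (x - ε) :=
    nhdsWithin_le_nhds h3
  obtain ⟨ε, hε1, hε2⟩ := (h4.and self_mem_nhdsWithin).exists
  exact ⟨ε, hε2, hε1⟩

/-- module LW -/
theorem LW_proof (hE : T_ENS) (hCov : T_COV) : T_LW := by
  intro S S' m w₀ k κ c₁ c₂ hfin hS hS' hc1 hc2 hD hD' hDbl hlt C₃ hC₃
  obtain ⟨ε, hε, hkey⟩ := exists_eps hlt
  set Λ : ℝ := max 1 ((1 + 1 / ε) * C₃ ^ 2 * 90 / (2 * π * ε) + 1) with hΛ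
  have hΛ1 : 1 ≤ Λ := le_max_left _ _
  have hΛ0 : 0 < Λ := by linarith
  have hΛ2 : (1 + 1 / ε) * C₃ ^ 2 * 90 / (2 * π * ε) < Λ :=
    lt_of_lt_of_le (by linarith) (le_max_right _ _)
  have hΛ3 : (1 + 1 / ε) * C₃ ^ 2 * (90 / Λ) < 2 * π * ε := by
    rw [div_lt_iff₀ (by positivity)] at hΛ2
    rw [mul_div_assoc', div_lt_iff₀ hΛ0]
    linarith
  refine ⟨Λ, hΛ1, ?_⟩
  intro η hη
  set A : ℝ := 1 + (|w₀| + 1) ^ 2 with hA
  have hA0 : 0 < A := by positivity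
  have hε' : 0 < ε / (9 * A) := by positivity
  have hsmall : ∀ᶠ r in 𝓝[>] (0 : ℝ), r < min (η / 4) (1 / 8) := by
    apply nhdsWithin_le_nhds
    exact Iio_mem_nhds (by positivity)
  obtain ⟨r, ⟨hm0, hm9⟩, hd1, hd2, hrs, hr0⟩ :=
    (hDbl.and_eventually ((hD _ hε').and ((hD' _ hε').and (hsmall.and self_mem_nhdsWithin)))).exists
  have hr0' : 0 < r := hr0
  have hr1 : r < η / 4 := lt_of_lt_of_le hrs (min_le_left _ _)
  have hr2 : r < 1 / 8 := lt_of_lt_of_le hrs (min_le_right _ _)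
  -- the bump
  let φb : ContDiffBump w₀ := ⟨r / 2, r, by positivity, by linarith⟩
  set φ : ℝ → ℝ := fun v => φb v with hφ
  have hφsm : ContDiff ℝ ∞ φ := φb.contDiff
  have hφc : Continuous φ := φb.continuous
  have hφcs : HasCompactSupport φ := φb.hasCompactSupport
  have hφ0 : ∀ v, 0 ≤ φ v := fun v => φb.nonneg
  have hφ1 : ∀ v, φ v ≤ 1 := fun v => φb.le_one
  have hφin : ∀ v ∈ closedBall w₀ (r / 2), φ v = 1 := fun v hv => φb.one_of_mem_closedBall hv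
  have hφout : ∀ v, v ∉ closedBall w₀ r → φ v = 0 := by
    intro v hv
    apply φb.zero_of_le_dist
    rw [mem_closedBall, not_le] at hv
    exact hv.le
  have hφhalf : ∀ w, 1 / 2 ≤ |w - w₀| → φ w = 0 := by
    intro w hw
    apply hφout
    rw [mem_closedBall, Real.dist_eq]
    linarith
  -- the weight
  set g : ℝ → ℝ := fun v => φ v * (1 + v ^ 2) with hg
  have hgc : Continuous g := by fun_prop
  have hgcs : HasCompactSupport g := hφcs.mul_right
  have hgle : ∀ v, g v ≤ A := by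
    intro v
    by_cases hv : v ∈ closedBall w₀ r
    · rw [mem_closedBall, Real.dist_eq] at hv
      have h1 : |v| ≤ |w₀| + 1 := by
        have : |v| ≤ |v - w₀| + |w₀| := by
          have := abs_add_le (v - w₀) w₀
          simpa using this
        linarith
      have h2 : v ^ 2 ≤ (|w₀| + 1) ^ 2 := by
        rw [← sq_abs v]
        exact pow_le_pow_left₀ (abs_nonneg _) h1 2
      calc φ v * (1 + v ^ 2) ≤ 1 * (1 + v ^ 2) := by
            apply mul_le_mul_of_nonneg_right (hφ1 v) (by positivity)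
        _ ≤ A := by rw [hA]; linarith
    · show φ v * (1 + v ^ 2) ≤ A
      rw [hφout v hv]; simpa using hA0.le
  have hg0 : ∀ v, 0 ≤ g v := fun v => mul_nonneg (hφ0 v) (by positivity)
  have hgint : ∀ μ : Measure ℝ, IsFiniteMeasure μ → Integrable g μ := by
    intro μ _
    refine Integrable.of_bound hgc.aestronglyMeasurable A (ae_of_all _ fun v => ?_)
    rw [Real.norm_eq_abs, abs_of_nonneg (hg0 v)]
    exact hgle v
  set X : ℝ := ∫ v, g v ∂m with hX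
  set mr : ℝ := (m (closedBall w₀ (r / 2))).toReal with hmr
  have hXm : mr ≤ X := by
    have h1 : mr = ∫ v, (closedBall w₀ (r / 2)).indicator (fun _ => (1 : ℝ)) v ∂m := by
      rw [integral_indicator measurableSet_closedBall, setIntegral_const]
      simp [hmr, Measure.real]
    rw [h1]
    apply integral_mono
    · exact (integrable_const (1 : ℝ)).indicator measurableSet_closedBall
    · exact hgint m hfin
    · intro v
      by_cases hv : v ∈ closedBall w₀ (r / 2)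
      · simp only [indicator_of_mem hv, hg]
        rw [hφin v hv, one_mul]
        nlinarith [sq_nonneg v]
      · simp only [indicator_of_notMem hv]
        exact hg0 v
  have hX0 : 0 < X := lt_of_lt_of_le hm0 hXm
  -- density estimates
  have hmono : (m (closedBall w₀ r)).toReal ≤ 9 * mr := by
    refine le_trans (ENNReal.toReal_mono (measure_ne_top _ _) (measure_mono ?_)) hm9
    exact closedBall_subset_closedBall (by linarith)
  have hdens : ∀ (μ : Measure ℝ) (q : ℝ), μ ≤ m →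
      (∀ f : ℝ → ℝ, Measurable f → (∀ x, 0 ≤ f x) → (∀ x, f x ≤ 1) →
        (∀ x, x ∉ closedBall w₀ r → f x = 0) →
        |∫ x, f x ∂μ - q * ∫ x, f x ∂m| ≤ ε / (9 * A) * (m (closedBall w₀ r)).toReal) →
      |∫ v, g v ∂μ - q * X| ≤ ε * X := by
    intro μ q hμ hf
    have h1 := hf (fun v => g v / A) (hgc.measurable.div_const A)
      (fun v => div_nonneg (hg0 v) hA0.le) (fun v => (div_le_one hA0).2 (hgle v))
      (fun v hv => by show φ v * (1 + v ^ 2) / A = 0; rw [hφout v hv]; simp)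
    rw [integral_div, integral_div] at h1
    have h2 : (∫ v, g v ∂μ) / A - q * ((∫ v, g v ∂m) / A) = (∫ v, g v ∂μ - q * X) / A := by
      rw [hX]; ring
    rw [h2, abs_div, abs_of_pos hA0, div_le_iff₀ hA0] at h1
    calc |∫ v, g v ∂μ - q * X| ≤ ε / (9 * A) * (m (closedBall w₀ r)).toReal * A := h1
      _ ≤ ε / (9 * A) * (9 * X) * A := by
          gcongr
          linarith
      _ = ε * X := by field_simp
  have hY := hdens S.μT k hS hd1
  have hY' := hdens S'.μT κ hS' hd2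
  have hYl : (k - ε) * X ≤ ∫ v, g v ∂S.μT := by
    have := (abs_le.1 hY).1
    linarith
  have hYu : ∫ v, g v ∂S'.μT ≤ (κ + ε) * X := by
    have := (abs_le.1 hY').2
    linarith
  -- energies
  obtain ⟨hcontS, hlimS⟩ := hE S w₀ φ hφsm hφcs hφhalf
  obtain ⟨hcontS', hlimS'⟩ := hE S' w₀ φ hφsm hφcs hφhalf
  have hmr0 : 0 < m (closedBall w₀ r) := by
    have h1 : 0 < m (closedBall w₀ (r / 2)) := by
      by_contra hcon
      have : m (closedBall w₀ (r / 2)) = 0 := by simpa using hcon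
      rw [hmr, this] at hm0
      simp at hm0
    exact lt_of_lt_of_le h1 (measure_mono (closedBall_subset_closedBall (by linarith)))
  have hcov := hCov m w₀ r Λ hr0' hΛ0 hmr0
  have hlim : ∀ᶠ τ in atTop, (1 + ε) * (c₂ ^ 2 * (τ * ∫ w, φ w * ‖S'.aT w₀ τ w‖ ^ 2)) +
      2 * π * ε * X < c₁ ^ 2 * (τ * ∫ w, φ w * ‖S.aT w₀ τ w‖ ^ 2) := by
    have l1 := hlimS.const_mul (c₁ ^ 2)
    have l2 := ((hlimS'.const_mul (c₂ ^ 2)).const_mul (1 + ε)).add_const (2 * π * ε * X)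
    refine l2.eventually_lt l1 ?_
    have e1 : (1 + ε) * (c₂ ^ 2 * (2 * π * ∫ v, φ v * (1 + v ^ 2) ∂S'.μT)) ≤
        2 * π * ((1 + ε) * (c₂ ^ 2 * (κ + ε)) * X) := by
      calc (1 + ε) * (c₂ ^ 2 * (2 * π * ∫ v, φ v * (1 + v ^ 2) ∂S'.μT))
          ≤ (1 + ε) * (c₂ ^ 2 * (2 * π * ((κ + ε) * X))) := by
            gcongr
        _ = 2 * π * ((1 + ε) * (c₂ ^ 2 * (κ + ε)) * X) := by ring
    have e2 : 2 * π * (c₁ ^ 2 * (k - ε) * X) ≤
        c₁ ^ 2 * (2 * π * ∫ v, φ v * (1 + v ^ 2) ∂S.μT) := by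
      calc 2 * π * (c₁ ^ 2 * (k - ε) * X) = c₁ ^ 2 * (2 * π * ((k - ε) * X)) := by ring
        _ ≤ c₁ ^ 2 * (2 * π * ∫ v, φ v * (1 + v ^ 2) ∂S.μT) := by
            gcongr
    have e3 : 2 * π * ((1 + ε) * (c₂ ^ 2 * (κ + ε)) * X) + 2 * π * ε * X <
        2 * π * (c₁ ^ 2 * (k - ε) * X) := by
      have hpx : 0 < 2 * π * X := by positivity
      nlinarith
    linarith
  have hlarge : ∀ᶠ τ in atTop, (0 : ℝ) < τ := eventually_gt_atTop 0
  obtain ⟨τ₀, hτ₀⟩ := eventually_atTop.1 ((hcov.and hlim).and hlarge)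
  refine ⟨τ₀, ?_⟩
  intro τ hτ
  obtain ⟨⟨⟨δ, hδm, hδ, hδint⟩, hstrict⟩, hτ0⟩ := hτ₀ τ hτ
  by_contra hcon
  push Not at hcon
  -- the reverse inequality on the whole ball
  have hrev : ∀ w ∈ closedBall w₀ r, c₁ * ‖S.aT w₀ τ w‖ <
      c₂ * ‖S'.aT w₀ τ w‖ + C₃ / (τ * δ w) := by
    intro w hw
    obtain ⟨h1, h2, h3⟩ := hδ w hw
    rw [mem_closedBall, Real.dist_eq] at hw
    exact hcon w (δ w) (by linarith) h1 (by linarith) h3
  obtain ⟨hJint, hJle⟩ := cov_int measurableSet_closedBall hδm hφc.measurable hφ0 hφ1 hφout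
    (by positivity : (0 : ℝ) ≤ 10 * τ / Λ) (measure_ne_top m _) hδint
  have hI1 : Integrable fun w => φ w * ‖S.aT w₀ τ w‖ ^ 2 := by
    apply Continuous.integrable_of_hasCompactSupport
    · exact hφc.mul ((hcontS τ).pow 2)
    · exact hφcs.mul_right
  have hI2 : Integrable fun w => φ w * ‖S'.aT w₀ τ w‖ ^ 2 := by
    apply Continuous.integrable_of_hasCompactSupport
    · exact hφc.mul ((hcontS' τ).pow 2)
    · exact hφcs.mul_right
  have hpt : ∀ w, c₁ ^ 2 * (φ w * ‖S.aT w₀ τ w‖ ^ 2) ≤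
      (1 + ε) * (c₂ ^ 2 * (φ w * ‖S'.aT w₀ τ w‖ ^ 2)) +
      (1 + 1 / ε) * C₃ ^ 2 / τ ^ 2 * (φ w * (1 / (δ w) ^ 2)) := by
    intro w
    by_cases hw : w ∈ closedBall w₀ r
    · have h1 := (hrev w hw).le
      have h2 : 0 < δ w := (hδ w hw).1
      set p := c₁ * ‖S.aT w₀ τ w‖ with hp
      set q := c₂ * ‖S'.aT w₀ τ w‖ with hq
      set s := C₃ / (τ * δ w) with hs
      have hp0 : 0 ≤ p := by positivity
      have h3 : p ^ 2 ≤ (1 + ε) * q ^ 2 + (1 + 1 / ε) * s ^ 2 := by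
        have h4 : p ^ 2 ≤ (q + s) ^ 2 := pow_le_pow_left₀ hp0 h1 2
        have h5 : (1 + ε) * q ^ 2 + (1 + 1 / ε) * s ^ 2 - (q + s) ^ 2 =
            (ε * q - s) ^ 2 / ε := by field_simp; ring
        have h6 : 0 ≤ (ε * q - s) ^ 2 / ε := by positivity
        linarith
      calc c₁ ^ 2 * (φ w * ‖S.aT w₀ τ w‖ ^ 2) = φ w * p ^ 2 := by rw [hp]; ring
        _ ≤ φ w * ((1 + ε) * q ^ 2 + (1 + 1 / ε) * s ^ 2) :=
            mul_le_mul_of_nonneg_left h3 (hφ0 w)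
        _ = _ := by
            rw [hq, hs]
            field_simp
    · rw [hφout w hw]
      simp
  have hmain : c₁ ^ 2 * ∫ w, φ w * ‖S.aT w₀ τ w‖ ^ 2 ≤
      (1 + ε) * (c₂ ^ 2 * ∫ w, φ w * ‖S'.aT w₀ τ w‖ ^ 2) +
      (1 + 1 / ε) * C₃ ^ 2 / τ ^ 2 * ∫ w, φ w * (1 / (δ w) ^ 2) := by
    rw [← integral_const_mul, ← integral_const_mul, ← integral_const_mul, ← integral_const_mul,
      ← integral_add ((hI2.const_mul _).const_mul _) (hJint.const_mul _)]
    exact integral_mono (hI1.const_mul _)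
      (((hI2.const_mul _).const_mul _).add (hJint.const_mul _)) hpt
  have hlast : τ * ((1 + 1 / ε) * C₃ ^ 2 / τ ^ 2 * ∫ w, φ w * (1 / (δ w) ^ 2)) ≤
      2 * π * ε * X := by
    have h1 : ∫ w, φ w * (1 / (δ w) ^ 2) ≤ 10 * τ / Λ * (9 * X) := by
      refine hJle.trans ?_
      gcongr
      exact hm9.trans (by gcongr)
    calc τ * ((1 + 1 / ε) * C₃ ^ 2 / τ ^ 2 * ∫ w, φ w * (1 / (δ w) ^ 2))
        ≤ τ * ((1 + 1 / ε) * C₃ ^ 2 / τ ^ 2 * (10 * τ / Λ * (9 * X))) := by gcongr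
      _ = (1 + 1 / ε) * C₃ ^ 2 * (90 / Λ) * X := by field_simp; ring
      _ ≤ 2 * π * ε * X := by gcongr
  have hfinal := mul_le_mul_of_nonneg_left hmain hτ0.le
  have : c₁ ^ 2 * (τ * ∫ w, φ w * ‖S.aT w₀ τ w‖ ^ 2) ≤
      (1 + ε) * (c₂ ^ 2 * (τ * ∫ w, φ w * ‖S'.aT w₀ τ w‖ ^ 2)) + 2 * π * ε * X := by
    linarith
  linarith

end Pool.Agent.H97.BP.LWM
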