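import Mathlib
import Pool.Agent.H66.BP.Targets

/-! # MP_d8fe2e_gt, module STRIP: every convex body is a strip -/

open MeasureTheory Set Filter Topology Metric
open scoped Real ENNReal NNReal ComplexConjugate ContDiff

namespace Pool.Agent.H97.BP.ST
open Pool.Agent.H66.BP

theorem cont_coord (i : Fin 2) : Continuous (fun y : E => y i) := by fun_prop

theorem conc_ineq {a b : ℝ} {f : ℝ → ℝ} (hc : ConcaveOn ℝ (Icc a b) f) {p q x : ℝ}
    (hp : p ∈ Icc a b) (hq : q ∈ Icc a b) (hpx : p ≤ x) (hxq : x ≤ q) :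
    (q - x) * f p + (x - p) * f q ≤ (q - p) * f x := by
  rcases eq_or_lt_of_le (hpx.trans hxq) with h | h
  · have h1 : x = p := le_antisymm (by linarith) hpx
    have h2 : q = p := h.symm
    rw [h1, h2]; simp
  have hpos : 0 < q - p := by linarith
  have h1 : 0 ≤ (q - x) / (q - p) := div_nonneg (by linarith) hpos.le
  have h2 : 0 ≤ (x - p) / (q - p) := div_nonneg (by linarith) hpos.le
  have h3 : (q - x) / (q - p) + (x - p) / (q - p) = 1 := by field_simp; ring
  have := hc.2 hp hq h1 h2 h3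
  simp only [smul_eq_mul] at this
  have e : (q - x) / (q - p) * p + (x - p) / (q - p) * q = x := by field_simp; ring
  rw [e] at this
  calc (q - x) * f p + (x - p) * f q
      = (q - p) * ((q - x) / (q - p) * f p + (x - p) / (q - p) * f q) := by field_simp
    _ ≤ (q - p) * f x := by gcongr

theorem cont_of_conc {a b : ℝ} {f : ℝ → ℝ} (hab : a < b) (hc : ConcaveOn ℝ (Icc a b) f)
    (husc : ∀ x0 ∈ Icc a b, ∀ c > f x0, ∀ᶠ x in 𝓝[Icc a b] x0, f x < c) :
    ContinuousOn f (Icc a b) := by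
  intro x0 hx0
  rw [ContinuousWithinAt, tendsto_order]
  refine ⟨?_, fun c hc' => husc x0 hx0 c hc'⟩
  intro c hc'
  have ha : a ∈ Icc a b := ⟨le_rfl, hab.le⟩
  have hb : b ∈ Icc a b := ⟨hab.le, le_rfl⟩
  have l1 : ∀ᶠ x in 𝓝 x0, c < f x0 + (x - x0) / (b - x0) * (f b - f x0) := by
    have hcont : Continuous fun x => f x0 + (x - x0) / (b - x0) * (f b - f x0) := by
      fun_prop
    apply hcont.continuousAt.eventually_const_lt
    simpa using hc'
  have l2 : ∀ᶠ x in 𝓝 x0, c < f x0 + (x0 - x) / (x0 - a) * (f a - f x0) := by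
    have hcont : Continuous fun x => f x0 + (x0 - x) / (x0 - a) * (f a - f x0) := by
      fun_prop
    apply hcont.continuousAt.eventually_const_lt
    simpa using hc'
  filter_upwards [nhdsWithin_le_nhds l1, nhdsWithin_le_nhds l2, self_mem_nhdsWithin]
    with x h1 h2 hx
  rcases lt_trichotomy x x0 with h | h | h
  · refine lt_of_lt_of_le h2 ?_
    have h3 : 0 < x0 - a := by linarith [hx.1]
    have h4 := conc_ineq hc ha hx0 hx.1 h.le
    have h5 : (x0 - a) * (f x0 + (x0 - x) / (x0 - a) * (f a - f x0)) ≤ (x0 - a) * f x := by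
      refine le_trans (le_of_eq ?_) h4
      field_simp
      ring
    exact le_of_mul_le_mul_left h5 h3
  · rw [h]; exact hc'
  · refine lt_of_lt_of_le h1 ?_
    have h3 : 0 < b - x0 := by linarith [hx.2]
    have h4 := conc_ineq hc hx0 hb h.le hx.2
    have h5 : (b - x0) * (f x0 + (x - x0) / (b - x0) * (f b - f x0)) ≤ (b - x0) * f x := by
      refine le_trans (le_of_eq ?_) h4
      field_simp
      ring
    exact le_of_mul_le_mul_left h5 h3

theorem pos_of_conc {a b : ℝ} {f : ℝ → ℝ} (hc : ConcaveOn ℝ (Icc a b) f)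
    (h0 : ∀ x ∈ Icc a b, 0 ≤ f x) {z : ℝ} (hz : z ∈ Icc a b) (hzp : 0 < f z) {x : ℝ}
    (hx : x ∈ Ioo a b) : 0 < f x := by
  have ha : a ∈ Icc a b := ⟨le_rfl, (hx.1.trans hx.2).le⟩
  have hb : b ∈ Icc a b := ⟨(hx.1.trans hx.2).le, le_rfl⟩
  rcases lt_trichotomy x z with h | h | h
  · have h4 := conc_ineq hc ha hz hx.1.le h.le
    have h5 : 0 < (x - a) * f z := mul_pos (by linarith [hx.1]) hzp
    have h6 : 0 ≤ (z - x) * f a := mul_nonneg (by linarith) (h0 a ha)
    have h7 : 0 < (z - a) * f x := by linarith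
    exact (mul_pos_iff_of_pos_left (by linarith [hx.1])).1 h7
  · rw [h]; exact hzp
  · have h4 := conc_ineq hc hz hb h.le hx.2.le
    have h5 : 0 < (b - x) * f z := mul_pos (by linarith [hx.2]) hzp
    have h6 : 0 ≤ (x - z) * f b := mul_nonneg (by linarith) (h0 b hb)
    have h7 : 0 < (b - z) * f x := by linarith
    exact (mul_pos_iff_of_pos_left (by linarith [hx.2])).1 h7

/-- module STRIP -/
theorem STRIP_proof : T_STRIP := by
  intro K hK
  have hKne : K.Nonempty := hK.nonempty.mono interior_subset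
  set I : Set ℝ := (fun y : E => y 1) '' K with hI
  have hIc : IsCompact I := hK.compact.image (cont_coord 1)
  have hIne : I.Nonempty := hKne.image _
  have hIcv : Convex ℝ I := by
    have : I = (EuclideanSpace.proj (1 : Fin 2) : E →L[ℝ] ℝ) '' K := rfl
    rw [this]
    exact hK.convex.linear_image (EuclideanSpace.proj (1 : Fin 2) : E →L[ℝ] ℝ).toLinearMap
  have hIord : OrdConnected I := hIcv.ordConnected
  set a := sInf I with ha
  set b := sSup I with hb
  have haI : a ∈ I := hIc.sInf_mem hIne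
  have hbI : b ∈ I := hIc.sSup_mem hIne
  have hIeq : I = Icc a b := by
    apply Subset.antisymm
    · intro x hx
      exact ⟨csInf_le hIc.bddBelow hx, le_csSup hIc.bddAbove hx⟩
    · exact hIord.out haI hbI
  -- the fibres
  set F : ℝ → Set ℝ := fun x => {t | (!₂[t, x] : E) ∈ K} with hF
  have hpt : ∀ y : E, (!₂[y 0, y 1] : E) = y := by
    intro y
    ext i; fin_cases i <;> simp
  have hFc : ∀ x, IsClosed (F x) := by
    intro x
    have h1 : Continuous fun t : ℝ => (!₂[t, x] : E) := by fun_prop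
    exact hK.compact.isClosed.preimage h1
  have hFsub : ∀ x, F x ⊆ (fun y : E => y 0) '' K := by
    intro x t ht
    exact ⟨_, ht, by simp⟩
  have hFcp : ∀ x, IsCompact (F x) := fun x =>
    (hK.compact.image (cont_coord 0)).of_isClosed_subset (hFc x) (hFsub x)
  have hFne : ∀ x ∈ Icc a b, (F x).Nonempty := by
    intro x hx
    rw [← hIeq] at hx
    obtain ⟨y, hy, rfl⟩ := hx
    exact ⟨y 0, by show (!₂[y 0, y 1] : E) ∈ K; rw [hpt]; exact hy⟩
  have hcomb : ∀ (t s x y p q : ℝ), p • (!₂[t, x] : E) + q • (!₂[s, y] : E) =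
      !₂[p * t + q * s, p * x + q * y] := by
    intro t s x y p q
    ext i; fin_cases i <;> simp
  have hFmix : ∀ (t s x y p q : ℝ), t ∈ F x → s ∈ F y → 0 ≤ p → 0 ≤ q → p + q = 1 →
      p * t + q * s ∈ F (p * x + q * y) := by
    intro t s x y p q ht hs hp hq hpq
    have := hK.convex ht hs hp hq hpq
    rw [hcomb] at this
    exact this
  have hFord : ∀ x, OrdConnected (F x) := by
    intro x
    apply Convex.ordConnected
    intro t ht s hs p q hp hq hpq
    have := hFmix t s x x p q ht hs hp hq hpq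
    have e : p * x + q * x = x := by rw [← add_mul, hpq, one_mul]
    rw [e] at this
    exact this
  set T : ℝ → ℝ := fun x => sSup (F x) with hT
  set B : ℝ → ℝ := fun x => sInf (F x) with hB
  have hTm : ∀ x ∈ Icc a b, T x ∈ F x := fun x hx => (hFcp x).sSup_mem (hFne x hx)
  have hBm : ∀ x ∈ Icc a b, B x ∈ F x := fun x hx => (hFcp x).sInf_mem (hFne x hx)
  have hTle : ∀ x t, t ∈ F x → t ≤ T x := fun x t ht => le_csSup (hFcp x).bddAbove ht
  have hBle : ∀ x t, t ∈ F x → B x ≤ t := fun x t ht => csInf_le (hFcp x).bddBelow ht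
  have hmem : ∀ y : E, y ∈ K → y 1 ∈ Icc a b ∧ B (y 1) ≤ y 0 ∧ y 0 ≤ T (y 1) := by
    intro y hy
    have h1 : y 1 ∈ Icc a b := by rw [← hIeq]; exact ⟨y, hy, rfl⟩
    have h2 : y 0 ∈ F (y 1) := by show (!₂[y 0, y 1] : E) ∈ K; rw [hpt]; exact hy
    exact ⟨h1, hBle _ _ h2, hTle _ _ h2⟩
  -- an interior point
  obtain ⟨z, hz⟩ := hK.nonempty
  obtain ⟨ε, hε, hsub⟩ := Metric.mem_nhds_iff.1 (mem_interior_iff_mem_nhds.1 hz)
  have key : ∀ (i : Fin 2) (s : ℝ), |s| = ε / 2 → z + EuclideanSpace.single i s ∈ K := by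
    intro i s hs
    apply hsub
    rw [mem_ball, dist_self_add_left, EuclideanSpace.norm_single, Real.norm_eq_abs, hs]
    linarith
  have e1 : |ε / 2| = ε / 2 := abs_of_pos (by positivity)
  have e2 : |(-(ε / 2))| = ε / 2 := by rw [abs_neg]; exact e1
  have k1 := hmem _ (key 1 (ε / 2) e1)
  have k2 := hmem _ (key 1 (-(ε / 2)) e2)
  have k3 := hmem _ (key 0 (ε / 2) e1)
  have k4 := hmem _ (key 0 (-(ε / 2)) e2)
  simp only [PiLp.add_apply, mem_Icc] at k1 k2 k3 k4
  simp at k1 k2 k3 k4
  have hab : a < b := by linarith [k1.1.2, k2.1.1]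
  have hzI : z 1 ∈ Icc a b := (hmem z (interior_subset hz)).1
  have hconcT : ConcaveOn ℝ (Icc a b) T := by
    refine ⟨convex_Icc _ _, fun x hx y hy p q hp hq hpq => ?_⟩
    exact hTle _ _ (hFmix _ _ _ _ p q (hTm x hx) (hTm y hy) hp hq hpq)
  have hconvB : ConvexOn ℝ (Icc a b) B := by
    refine ⟨convex_Icc _ _, fun x hx y hy p q hp hq hpq => ?_⟩
    exact hBle _ _ (hFmix _ _ _ _ p q (hBm x hx) (hBm y hy) hp hq hpq)
  have hcT : ContinuousOn T (Icc a b) := by
    apply cont_of_conc hab hconcT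
    intro x0 hx0 c hc
    set Kc : Set E := K ∩ {y : E | c ≤ y 0} with hKc
    have h1 : IsCompact Kc := hK.compact.inter_right (isClosed_le continuous_const (cont_coord 0))
    have h2 : IsClosed ((fun y : E => y 1) '' Kc) := (h1.image (cont_coord 1)).isClosed
    have h3 : x0 ∉ (fun y : E => y 1) '' Kc := by
      rintro ⟨y, ⟨hy1, hy2⟩, hy3⟩
      have h4 := (hmem y hy1).2.2
      simp only at hy3
      rw [hy3] at h4
      have : c ≤ y 0 := hy2
      linarith
    filter_upwards [nhdsWithin_le_nhds (h2.isOpen_compl.mem_nhds h3), self_mem_nhdsWithin]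
      with x hx1 hx2
    by_contra hcon
    push Not at hcon
    apply hx1
    exact ⟨!₂[T x, x], ⟨hTm x hx2, by show c ≤ _; simpa using hcon⟩, by simp⟩
  have hcB : ContinuousOn B (Icc a b) := by
    have hneg : ContinuousOn (fun x => - B x) (Icc a b) := by
      apply cont_of_conc hab hconvB.neg
      intro x0 hx0 c hc
      set Kc : Set E := K ∩ {y : E | y 0 ≤ -c} with hKc
      have h1 : IsCompact Kc := hK.compact.inter_right (isClosed_le (cont_coord 0) continuous_const)
      have h2 : IsClosed ((fun y : E => y 1) '' Kc) := (h1.image (cont_coord 1)).isClosed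
      have h3 : x0 ∉ (fun y : E => y 1) '' Kc := by
        rintro ⟨y, ⟨hy1, hy2⟩, hy3⟩
        have h4 := (hmem y hy1).2.1
        simp only at hy3
        rw [hy3] at h4
        have h5 : y 0 ≤ -c := hy2
        have h6 : - B x0 < c := hc
        linarith
      filter_upwards [nhdsWithin_le_nhds (h2.isOpen_compl.mem_nhds h3), self_mem_nhdsWithin]
        with x hx1 hx2
      by_contra hcon
      push Not at hcon
      have hcon' : c ≤ - B x := hcon
      apply hx1
      refine ⟨!₂[B x, x], ⟨hBm x hx2, ?_⟩, by simp⟩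
      show (!₂[B x, x] : E) 0 ≤ -c
      simp only [PiLp.toLp_apply, Matrix.cons_val_zero]
      linarith
    have h7 := hneg.neg
    have h8 : (fun x => -(-B x)) = B := by funext x; exact neg_neg _
    exact h8 ▸ h7
  have hle : ∀ x ∈ Icc a b, B x ≤ T x := fun x hx => hBle _ _ (hTm x hx)
  refine ⟨⟨a, b, T, B, hab, hconcT, hconvB, hcT, hcB, hle, ?_⟩, ?_⟩
  · intro x hx
    have hc : ConcaveOn ℝ (Icc a b) (fun x => T x - B x) := hconcT.sub hconvB
    have := pos_of_conc hc (fun x hx => sub_nonneg.2 (hle x hx)) hzI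
      (by linarith [k3.2.2, k4.2.1]) hx
    linarith
  · ext y
    constructor
    · rintro ⟨h1, h2, h3⟩
      have h4 : y 0 ∈ F (y 1) := (hFord (y 1)).out (hBm _ h1) (hTm _ h1) ⟨h2, h3⟩
      have h5 : (!₂[y 0, y 1] : E) ∈ K := h4
      rwa [hpt] at h5
    · intro hy
      exact hmem y hy

end Pool.Agent.H97.BP.ST
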